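import Pool.Agent.H52DS.Defs
import Pool.Agent.H52DS.Bounds
import Pool.Agent.H52DS.Upper
import Pool.Agent.H52DS.Tests
import Pool.Agent.H52DS.Conv

/-!
# Multidimensional matching and tests by local determinants (MP_71c844_lc)

`(e + 2)`-dimensional matching is NP-complete for `e = 1, 2, …`, and in P for `e = 0`, where one
determinant decides it. We bound from below the number of determinants needed by any algebraic test
of bounded degree (a zero test over any field, or a sign test over the reals) if every row of the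
matrices is an arbitrary function of few slices of the instance and every slice is used by few rows;
the sizes of the matrices are not restricted. The definitions `HasPM`, `LocalRows` and `cst` are in
the imported file `Pool.Agent.H52DS.Defs`.
-/

namespace Pool.Agent.Results.MP_71c844_lc.DeterminantTests
open Pool.Agent.H52DS

theorem result (K : Type*) [Field K] (n e : ℕ) :
    -- (1) linear tests by (1,1)-local matrices: at least `(n choose n/2) ^ e` of them are needed
    (∀ (k : ℕ) (N : Fin k → ℕ)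
      (A : ∀ i, (Fin n → (Fin (e + 1) → Fin n) → Bool) → Matrix (Fin (N i)) (Fin (N i)) K)
      (Λ : Submodule K (Fin k → K)),
      (∀ i, LocalRows 1 1 (A i)) → (∀ T, HasPM T ↔ (fun i => (A i T).det) ∉ Λ) →
      (n.choose (n / 2)) ^ e ≤ k) ∧
    -- (2) if `K` is infinite, then `2 ^ (e * n)` such matrices of size `n` suffice
    (Infinite K →
      ∃ (A : Fin (2 ^ (e * n)) → (Fin n → (Fin (e + 1) → Fin n) → Bool) →
          Matrix (Fin n) (Fin n) K)
        (Λ : Submodule K (Fin (2 ^ (e * n)) → K)),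
        (∀ i, LocalRows 1 1 (A i)) ∧ ∀ T, HasPM T ↔ (fun i => (A i T).det) ∉ Λ) ∧
    -- (3) zero tests by polynomials of degree at most `D` and (1,r)-local matrices
    (∀ (k r D : ℕ) (N : Fin k → ℕ)
      (A : ∀ i, (Fin n → (Fin (e + 1) → Fin n) → Bool) → Matrix (Fin (N i)) (Fin (N i)) K)
      (Z : Set (MvPolynomial (Fin k) K)),
      (∀ i, LocalRows 1 r (A i)) → (∀ f ∈ Z, f.totalDegree ≤ D) →
      (∀ T, HasPM T ↔ ∃ f ∈ Z, MvPolynomial.eval (fun i => (A i T).det) f ≠ 0) →
      (1 + ((2 : ℝ) ^ (e + 1) - 2) / 2 ^ (r * D)) ^ (n - 1) ≤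
        ((k + D).choose D : ℝ) * ((n : ℝ) / 2 + 1) ^ (2 * (e + 2))) ∧
    -- (4) zero tests by polynomials of degree at most `D` and (t,r)-local matrices
    (1 ≤ e → ∀ (k t r D : ℕ) (N : Fin k → ℕ)
      (A : ∀ i, (Fin n → (Fin (e + 1) → Fin n) → Bool) → Matrix (Fin (N i)) (Fin (N i)) K)
      (Z : Set (MvPolynomial (Fin k) K)),
      (∀ i, LocalRows t r (A i)) → (∀ f ∈ Z, f.totalDegree ≤ D) →
      (∀ T, HasPM T ↔ ∃ f ∈ Z, MvPolynomial.eval (fun i => (A i T).det) f ≠ 0) →
      2 ^ (n / cst t r D) ≤ k + 1) ∧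
    -- (5) sign tests by a real polynomial of degree at most `D` and (t,r)-local matrices
    (1 ≤ e → ∀ (k t r D : ℕ) (N : Fin k → ℕ)
      (A : ∀ i, (Fin n → (Fin (e + 1) → Fin n) → Bool) → Matrix (Fin (N i)) (Fin (N i)) ℝ)
      (f : MvPolynomial (Fin k) ℝ),
      (∀ i, LocalRows t r (A i)) → f.totalDegree ≤ D →
      (∀ T, HasPM T ↔ 0 < MvPolynomial.eval (fun i => (A i T).det) f) →
      2 ^ (n / cst t r D) ≤ k + 1) := by
  refine ⟨fun k N A Λ hA h => bound_one N A (fun i => (hA i).rowWise) Λ h, fun hK => ?_, ?_, ?_, ?_⟩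
  · have := hK
    obtain ⟨A, Λ, h1, h2⟩ := upper K n e
    exact ⟨A, Λ, fun i => (h1 i).local, h2⟩
  · intro k r D N A Z hA hZ h
    exact bound_poly (e := e + 1) (by omega) N A (fun i => (hA i).rowWise) Z hZ h
  · intro he k t r D N A Z hA hZ h
    exact zero_tests he N A hA Z hZ h
  · intro he k t r D N A f hA hf h
    exact sign_tests he N A hA f hf h

end Pool.Agent.Results.MP_71c844_lc.DeterminantTests
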